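import Mathlib

/-!
Deleting one point from a strongly surjective linear order leaves a strongly surjective
linear order.
-/

open Set

universe u

namespace Pool.Agent.Results.MP_6d87e8_lc.DeletePoint

/-- `L` is strongly surjective: for every nonempty suborder `K` of `L` there is a weakly
order-preserving surjection from `L` onto `K`. -/
def StronglySurjective (L : Type u) [LinearOrder L] : Prop :=
  ∀ K : Set L, K.Nonempty → ∃ f : L → K, Monotone f ∧ Function.Surjective f

section

variable {L : Type u} [LinearOrder L]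

/-- Infinite sequence of successors starting from `x`. -/
theorem caseA {x : L} (s : ℕ → L) (h0 : s 0 = x) (hs : ∀ n, s n ⋖ s (n + 1)) :
    ∃ g : {y : L // y ≠ x} → L, Monotone g ∧ Function.Surjective g := by
  classical
  have hmono : StrictMono s := strictMono_nat_of_lt_succ fun n => (hs n).lt
  let P : L → Prop := fun y => ∃ n, y = s (n + 1)
  let g : {y : L // y ≠ x} → L := fun y => if h : P y.1 then s (Classical.choose h) else y.1
  have g1 : ∀ (y : {y : L // y ≠ x}) n, y.1 = s (n + 1) → g y = s n := by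
    intro y n hn
    have h : P y.1 := ⟨n, hn⟩
    have h2 : y.1 = s (Classical.choose h + 1) := Classical.choose_spec h
    have h3 : Classical.choose h = n := by
      have := hmono.injective (h2.symm.trans hn)
      omega
    change (if h : P y.1 then s (Classical.choose h) else y.1) = s n
    rw [dif_pos h, h3]
  have g2 : ∀ y : {y : L // y ≠ x}, (¬ ∃ n, y.1 = s (n + 1)) → g y = y.1 := fun y hy => dif_neg hy
  refine ⟨g, ?_, ?_⟩
  · intro y z hyz
    by_cases hy : ∃ n, y.1 = s (n + 1)
    · obtain ⟨n, hn⟩ := hy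
      rw [g1 y n hn]
      by_cases hz : ∃ m, z.1 = s (m + 1)
      · obtain ⟨m, hm⟩ := hz
        rw [g1 z m hm]
        have h1 : s (n + 1) ≤ s (m + 1) := by rw [← hn, ← hm]; exact hyz
        have h2 : n + 1 ≤ m + 1 := hmono.le_iff_le.mp h1
        exact hmono.monotone (by omega)
      · rw [g2 z hz]
        have h1 : s (n + 1) ≤ z.1 := by rw [← hn]; exact hyz
        exact (hs n).le.trans h1
    · rw [g2 y hy]
      by_cases hz : ∃ m, z.1 = s (m + 1)
      · obtain ⟨m, hm⟩ := hz
        rw [g1 z m hm]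
        have h1 : y.1 < s (m + 1) := by
          refine lt_of_le_of_ne ?_ ?_
          · rw [← hm]; exact hyz
          · exact fun e => hy ⟨m, e⟩
        exact (hs m).le_of_lt h1
      · rw [g2 z hz]
        exact hyz
  · intro z
    by_cases hz : ∃ n, z = s n
    · obtain ⟨n, rfl⟩ := hz
      have hne : s (n + 1) ≠ x := by
        rw [← h0]
        exact fun e => absurd (hmono.injective e) (by omega)
      exact ⟨⟨s (n + 1), hne⟩, g1 _ n rfl⟩
    · have hne : z ≠ x := by
        rintro rfl
        exact hz ⟨0, h0.symm⟩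
      refine ⟨⟨z, hne⟩, g2 _ ?_⟩
      rintro ⟨n, hn⟩
      exact hz ⟨n + 1, hn⟩

/-- Auxiliary monotone map onto a finite set. -/
theorem exists_retr (R : Set L) (hR : R.Nonempty) (hmax : ∀ b ∈ R, ∃ b' ∈ R, b < b')
    (C : Finset L) : C.Nonempty → ∃ r : L → L, Monotone r ∧ (∀ y, r y ∈ C) ∧
      ∃ b ∈ R, ∀ z ∈ C, ∃ y ∈ R, y ≤ b ∧ r y = z := by
  classical
  induction C using Finset.induction_on_max with
  | empty => intro h; exact absurd h Finset.not_nonempty_empty
  | insert m C hm ih =>
    intro _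
    rcases C.eq_empty_or_nonempty with rfl | hC
    · obtain ⟨b, hb⟩ := hR
      exact ⟨fun _ => m, monotone_const, by simp, b, hb, by
        intro z hz
        have hz' : z = m := by simpa using hz
        exact ⟨b, hb, le_rfl, hz'.symm⟩⟩
    · obtain ⟨r, hr, hrC, b, hb, hbs⟩ := ih hC
      obtain ⟨b', hb', hlt⟩ := hmax b hb
      refine ⟨fun y => if y < b' then r y else m, ?_, ?_, b', hb', ?_⟩
      · intro y z hyz
        dsimp only
        by_cases hz : z < b'
        · rw [if_pos hz, if_pos (hyz.trans_lt hz)]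
          exact hr hyz
        · rw [if_neg hz]
          split_ifs
          · exact (hm _ (hrC y)).le
          · exact le_rfl
      · intro y
        dsimp only
        split_ifs
        · exact Finset.mem_insert_of_mem (hrC y)
        · exact Finset.mem_insert_self _ _
      · intro z hz
        rcases Finset.mem_insert.mp hz with rfl | hz
        · exact ⟨b', hb', le_rfl, by simp⟩
        · obtain ⟨y, hy, hyb, e⟩ := hbs z hz
          refine ⟨y, hy, hyb.trans hlt.le, ?_⟩
          dsimp only
          rw [if_pos (hyb.trans_lt hlt), e]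

theorem caseC1 {x c d : L} (hcx : c ≤ x) (hxd : x ≤ d) (hfin : (Icc c d).Finite)
    (hc : ∀ a < c, ∃ b, a < b ∧ b < c) (f : L → L) (hf : Monotone f)
    (hf1 : ∀ y, f y ∉ Icc c d) (hf2 : ∀ z, z ∉ Icc c d → ∃ y, f y = z) (hfd : f d < c) :
    ∃ g : {y : L // y ≠ x} → L, Monotone g ∧ Function.Surjective g := by
  classical
  have hcd : c ≤ d := hcx.trans hxd
  obtain ⟨r, hr, hrC, b, hb, hbs⟩ := exists_retr (Ioo (f d) c)
    (by obtain ⟨b, h1, h2⟩ := hc _ hfd; exact ⟨b, h1, h2⟩)
    (by
      rintro b ⟨h1, h2⟩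
      obtain ⟨b', h3, h4⟩ := hc b h2
      exact ⟨b', ⟨h1.trans h3, h4⟩, h3⟩) hfin.toFinset (by
      refine ⟨c, ?_⟩
      simp [hcd])
  have hrc : ∀ y, c ≤ r y := fun y => by
    have := hrC y
    rw [Set.Finite.mem_toFinset] at this
    exact this.1
  have hrd : ∀ y, r y ≤ d := fun y => by
    have := hrC y
    rw [Set.Finite.mem_toFinset] at this
    exact this.2
  have hout : ∀ y, ¬ f y < c → d < f y := by
    intro y hy
    by_contra hcon
    exact hf1 y ⟨not_lt.mp hy, not_lt.mp hcon⟩
  let g : L → L := fun y =>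
    if y < c then y else if y ≤ d then c else if f y < c then r (f y) else f y
  have ga : ∀ y, y < c → g y = y := fun y hy => if_pos hy
  have gb : ∀ y, ¬ y < c → y ≤ d → g y = c := fun y h1 h2 => by
    simp only [g, if_neg h1, if_pos h2]
  have gc : ∀ y, d < y → f y < c → g y = r (f y) := fun y h1 h2 => by
    have e1 : ¬ y < c := not_lt.mpr (hcd.trans h1.le)
    have e2 : ¬ y ≤ d := not_le.mpr h1
    simp only [g, if_neg e1, if_neg e2, if_pos h2]
  have gd : ∀ y, d < y → ¬ f y < c → g y = f y := fun y h1 h2 => by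
    have e1 : ¬ y < c := not_lt.mpr (hcd.trans h1.le)
    have e2 : ¬ y ≤ d := not_le.mpr h1
    simp only [g, if_neg e1, if_neg e2, if_neg h2]
  have gge : ∀ y, ¬ y < c → c ≤ g y := by
    intro y hy
    by_cases h1 : y ≤ d
    · rw [gb y hy h1]
    · rw [not_le] at h1
      by_cases h2 : f y < c
      · rw [gc y h1 h2]; exact hrc _
      · rw [gd y h1 h2]; exact not_lt.mp h2
  have gmono : Monotone g := by
    intro y z hyz
    by_cases hy : y < c
    · rw [ga y hy]
      by_cases hz : z < c
      · rw [ga z hz]; exact hyz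
      · exact hy.le.trans (gge z hz)
    · have hz : ¬ z < c := fun h => hy (hyz.trans_lt h)
      by_cases hyd : y ≤ d
      · rw [gb y hy hyd]
        exact gge z hz
      · rw [not_le] at hyd
        have hzd : d < z := hyd.trans_le hyz
        by_cases h1 : f z < c
        · rw [gc z hzd h1, gc y hyd ((hf hyz).trans_lt h1)]
          exact hr (hf hyz)
        · rw [gd z hzd h1]
          by_cases h2 : f y < c
          · rw [gc y hyd h2]
            exact (hrd _).trans (hout z h1).le
          · rw [gd y hyd h2]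
            exact hf hyz
  refine ⟨fun y => g y.1, fun y z h => gmono h, ?_⟩
  have hgt : ∀ y, f d < f y → d < y := by
    intro y hy
    by_contra hcon
    exact absurd hy (not_lt.mpr (hf (not_lt.mp hcon)))
  intro z
  by_cases hz : z < c
  · exact ⟨⟨z, (hz.trans_le hcx).ne⟩, ga z hz⟩
  · by_cases hzd : z ≤ d
    · obtain ⟨y', hy', _, e⟩ := hbs z (by
        rw [Set.Finite.mem_toFinset]
        exact ⟨not_lt.mp hz, hzd⟩)
      obtain ⟨y, hy⟩ := hf2 y' (fun h => absurd hy'.2 (not_lt.mpr h.1))
      have hdy : d < y := hgt y (by rw [hy]; exact hy'.1)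
      refine ⟨⟨y, (hxd.trans_lt hdy).ne'⟩, ?_⟩
      change g y = z
      rw [gc y hdy (by rw [hy]; exact hy'.2), hy, e]
    · rw [not_le] at hzd
      obtain ⟨y, hy⟩ := hf2 z (fun h => absurd h.2 (not_le.mpr hzd))
      have hdy : d < y := hgt y (by rw [hy]; exact hfd.trans (hcd.trans_lt hzd))
      refine ⟨⟨y, (hxd.trans_lt hdy).ne'⟩, ?_⟩
      change g y = z
      rw [gd y hdy (by rw [hy]; exact hz), hy]

/-- either an infinite sequence of successors or a last point of the finite-distance class -/
theorem right_dichotomy (x : L) : (∃ s : ℕ → L, s 0 = x ∧ ∀ n, s n ⋖ s (n + 1)) ∨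
    ∃ d, x ≤ d ∧ (Icc x d).Finite ∧ ∀ e, ¬ d ⋖ e := by
  classical
  by_cases h : ∀ d : L, (x ≤ d ∧ (Icc x d).Finite) → ∃ e, d ⋖ e
  · left
    choose! σ hσ using h
    have hx : x ≤ x ∧ (Icc x x).Finite := ⟨le_rfl, by simp⟩
    let s : ℕ → L := fun n => Nat.rec x (fun _ y => σ y) n
    have hs : ∀ n, x ≤ s n ∧ (Icc x (s n)).Finite := by
      intro n
      induction n with
      | zero => exact hx
      | succ n ih =>
        have h1 := hσ (s n) ih
        refine ⟨ih.1.trans h1.le, ?_⟩
        have h2 : Icc x (s (n + 1)) ⊆ insert (s (n + 1)) (Icc x (s n)) := by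
          rintro y ⟨hy1, hy2⟩
          rcases eq_or_lt_of_le hy2 with e | hlt
          · left; exact e
          · right; exact ⟨hy1, h1.le_of_lt hlt⟩
        exact (ih.2.insert _).subset h2
    exact ⟨s, rfl, fun n => hσ (s n) (hs n)⟩
  · right
    push Not at h
    obtain ⟨d, ⟨h1, h2⟩, h3⟩ := h
    exact ⟨d, h1, h2, h3⟩

end

theorem key (L : Type u) [LinearOrder L] (hL : StronglySurjective L) (hinf : Infinite L) (x : L) :
    ∃ g : {y : L // y ≠ x} → L, Monotone g ∧ Function.Surjective g := by
  classical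
  rcases right_dichotomy x with ⟨s, h0, hs⟩ | ⟨d, hxd, hfd, hd⟩
  · exact caseA s h0 hs
  rcases right_dichotomy (L := Lᵒᵈ) (OrderDual.toDual x) with ⟨s, h0, hs⟩ | ⟨c', hxc, hfc, hc⟩
  · obtain ⟨g, hg, hg'⟩ := caseA (L := Lᵒᵈ) s h0 hs
    exact ⟨g, fun y z hyz => hg hyz, hg'⟩
  -- the finite class
  set c : L := OrderDual.ofDual c' with hc_def
  have hcx : c ≤ x := hxc
  have hfc' : (Icc c x).Finite := by
    refine hfc.subset ?_
    rintro y ⟨h1, h2⟩
    exact ⟨h2, h1⟩
  have hcd : c ≤ d := hcx.trans hxd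
  have hfin : (Icc c d).Finite := by
    refine (hfc'.union hfd).subset ?_
    rintro y ⟨h1, h2⟩
    rcases le_total y x with h | h
    · left; exact ⟨h1, h⟩
    · right; exact ⟨h, h2⟩
  have hcdense : ∀ a < c, ∃ b, a < b ∧ b < c := by
    intro a ha
    by_contra hcon
    push Not at hcon
    apply hc (OrderDual.toDual a)
    refine ⟨ha, ?_⟩
    intro b h1 h2
    exact absurd h1 (not_lt.mpr (hcon b h2))
  have hddense : ∀ a, d < a → ∃ b, d < b ∧ b < a := by
    intro a ha
    by_contra hcon
    push Not at hcon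
    apply hd a
    refine ⟨ha, ?_⟩
    intro b h1 h2
    exact absurd h2 (not_lt.mpr (hcon b h1))
  -- both sides are nonempty
  have hne1 : ¬ (Iio c = ∅) := by
    intro hemp
    have hmin : ∀ y, c ≤ y := fun y => by
      by_contra h
      have : y ∈ Iio c := not_le.mp h
      rw [hemp] at this
      exact this
    rcases (Ioi d).eq_empty_or_nonempty with h | h
    · have : (Set.univ : Set L) ⊆ Icc c d := by
        intro y _
        refine ⟨hmin y, ?_⟩
        by_contra hy
        have : y ∈ Ioi d := not_le.mp hy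
        rw [h] at this
        exact this
      exact Set.infinite_univ (hfin.subset this)
    · obtain ⟨f, hf, hfs⟩ := hL _ h
      obtain ⟨b, hb1, hb2⟩ := hddense (f c).1 (f c).2
      obtain ⟨y, hy⟩ := hfs ⟨b, hb1⟩
      have : f c ≤ f y := hf (hmin y)
      rw [hy] at this
      exact absurd hb2 (not_lt.mpr this)
  have hne2 : ¬ (Ioi d = ∅) := by
    intro hemp
    have hmax : ∀ y, y ≤ d := fun y => by
      by_contra h
      have : y ∈ Ioi d := not_le.mp h
      rw [hemp] at this
      exact this
    obtain ⟨f, hf, hfs⟩ := hL (Iio c) (Set.nonempty_iff_ne_empty.mpr hne1)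
    obtain ⟨b, hb1, hb2⟩ := hcdense (f d).1 (f d).2
    obtain ⟨y, hy⟩ := hfs ⟨b, hb2⟩
    have : f y ≤ f d := hf (hmax y)
    rw [hy] at this
    exact absurd hb1 (not_lt.mpr this)
  obtain ⟨f, hf, hfs⟩ := hL (Icc c d)ᶜ (by
    obtain ⟨y, hy⟩ := Set.nonempty_iff_ne_empty.mpr hne1
    exact ⟨y, fun h => absurd hy (not_lt.mpr h.1)⟩)
  have hf' : Monotone (fun y => (f y).1) := fun y z h => hf h
  have hf1 : ∀ y, (f y).1 ∉ Icc c d := fun y => (f y).2
  have hf2 : ∀ z, z ∉ Icc c d → ∃ y, (f y).1 = z := fun z hz => by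
    obtain ⟨y, hy⟩ := hfs ⟨z, hz⟩
    exact ⟨y, by rw [hy]⟩
  by_cases h1 : (f d).1 < c
  · exact caseC1 hcx hxd hfin hcdense (fun y => (f y).1) hf' hf1 hf2 h1
  by_cases h2 : d < (f c).1
  · -- the dual case
    have hdual := caseC1 (L := Lᵒᵈ) (x := OrderDual.toDual x) (c := OrderDual.toDual d)
      (d := OrderDual.toDual c) hxd hcx (by
        refine hfin.subset ?_
        rintro y ⟨h1, h2⟩
        exact ⟨h2, h1⟩) (by
        intro a ha
        obtain ⟨b, hb1, hb2⟩ := hddense (OrderDual.ofDual a) ha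
        exact ⟨OrderDual.toDual b, hb2, hb1⟩)
      (fun y => OrderDual.toDual (f (OrderDual.ofDual y)).1) (fun y z h => hf' h)
      (fun y h => hf1 (OrderDual.ofDual y) ⟨h.2, h.1⟩)
      (fun z hz => by
        obtain ⟨y, hy⟩ := hf2 (OrderDual.ofDual z) (fun h => hz ⟨h.2, h.1⟩)
        exact ⟨OrderDual.toDual y, hy⟩) h2
    obtain ⟨g, hg, hg'⟩ := hdual
    exact ⟨g, fun y z hyz => hg hyz, hg'⟩
  · -- impossible case
    exfalso
    have h1' : d < (f d).1 := by
      by_contra hcon
      exact hf1 d ⟨not_lt.mp h1, not_lt.mp hcon⟩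
    have h2' : (f c).1 < c := by
      by_contra hcon
      exact hf1 c ⟨not_lt.mp hcon, not_lt.mp h2⟩
    have hsub : Ioo (f c).1 c ⊆ (fun y => (f y).1) '' Icc c d := by
      rintro z ⟨hz1, hz2⟩
      obtain ⟨y, hy⟩ := hf2 z (fun h => absurd hz2 (not_lt.mpr h.1))
      refine ⟨y, ⟨?_, ?_⟩, hy⟩
      · by_contra hcon
        have := hf' (not_le.mp hcon).le
        simp only at this
        rw [hy] at this
        exact absurd hz1 (not_lt.mpr this)
      · by_contra hcon
        have := hf' (not_le.mp hcon).le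
        simp only at this
        rw [hy] at this
        exact absurd (h1'.trans_le this) (not_lt.mpr (hz2.le.trans hcd))
    have hfinI : (Ioo (f c).1 c).Finite := (hfin.image _).subset hsub
    have hneI : (Ioo (f c).1 c).Nonempty := by
      obtain ⟨b, hb1, hb2⟩ := hcdense _ h2'
      exact ⟨b, hb1, hb2⟩
    obtain ⟨m, hm, hmax⟩ := hfinI.exists_maximal hneI
    obtain ⟨b, hb1, hb2⟩ := hcdense m hm.2
    exact absurd (hmax ⟨hm.1.trans hb1, hb2⟩ hb1.le) (not_le.mpr hb1)

theorem finite_case (M : Type u) [LinearOrder M] [Finite M] : StronglySurjective M := by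
  classical
  intro K hK
  have hfin : K.Finite := K.toFinite
  let T := hfin.toFinset
  have hT : T.Nonempty := by
    obtain ⟨k, hk⟩ := hK
    exact ⟨k, by simpa [T] using hk⟩
  let F : M → Finset M := fun y => insert (T.min' hT) (T.filter (· ≤ y))
  have hF : ∀ y, (F y).Nonempty := fun y => Finset.insert_nonempty _ _
  have hmem : ∀ y, (F y).max' (hF y) ∈ K := by
    intro y
    have h1 := Finset.max'_mem (F y) (hF y)
    rcases Finset.mem_insert.mp h1 with h | h
    · rw [h]
      have := Finset.min'_mem T hT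
      simpa [T] using this
    · have := (Finset.mem_filter.mp h).1
      simpa [T] using this
  refine ⟨fun y => ⟨(F y).max' (hF y), hmem y⟩, ?_, ?_⟩
  · intro y z hyz
    change (F y).max' (hF y) ≤ (F z).max' (hF z)
    apply Finset.max'_subset
    intro w hw
    rcases Finset.mem_insert.mp hw with h | h
    · exact Finset.mem_insert.mpr (Or.inl h)
    · refine Finset.mem_insert.mpr (Or.inr ?_)
      rw [Finset.mem_filter] at h ⊢
      exact ⟨h.1, h.2.trans hyz⟩
  · rintro ⟨k, hk⟩
    refine ⟨k, Subtype.ext ?_⟩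
    change (F k).max' (hF k) = k
    have hkT : k ∈ T := by simpa [T] using hk
    apply le_antisymm
    · apply Finset.max'_le
      intro w hw
      rcases Finset.mem_insert.mp hw with h | h
      · rw [h]
        exact Finset.min'_le _ _ hkT
      · exact (Finset.mem_filter.mp h).2
    · apply Finset.le_max'
      exact Finset.mem_insert.mpr (Or.inr (Finset.mem_filter.mpr ⟨hkT, le_rfl⟩))

/-- If `L` is strongly surjective then so is `L ∖ {x}` for every point `x` of `L`. -/
theorem result : ∀ (L : Type u) [LinearOrder L], StronglySurjective L →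
    ∀ x : L, StronglySurjective {y : L // y ≠ x} := by
  intro L _ hL x
  rcases finite_or_infinite L with hfin | hinf
  · exact finite_case _
  · obtain ⟨g, hg, hgs⟩ := key L hL hinf x
    intro K hK
    obtain ⟨f, hf, hfs⟩ := hL (Subtype.val '' K) (hK.image _)
    have hval : ∀ w : (Subtype.val '' K : Set L), ∃ k : K, (k.1 : L) = w.1 := by
      rintro ⟨_, k, hk, rfl⟩
      exact ⟨⟨k, hk⟩, rfl⟩
    choose e he using hval
    refine ⟨fun y => e (f (g y)), ?_, ?_⟩
    · intro y z hyz
      change (e (f (g y))).1.1 ≤ (e (f (g z))).1.1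
      rw [he, he]
      exact hf (hg hyz)
    · intro k
      obtain ⟨w, hw⟩ := hfs ⟨k.1.1, k.1, k.2, rfl⟩
      obtain ⟨y, hy⟩ := hgs w
      refine ⟨y, ?_⟩
      apply Subtype.ext
      apply Subtype.ext
      rw [he, hy, hw]

end Pool.Agent.Results.MP_6d87e8_lc.DeletePoint
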